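import Mathlib

set_option autoImplicit false

/-!
# A concise cubic in nine variables whose apolar ideal has at least ten minimal cubic generators
-/

namespace Pool.Agent.Results.MP_1eaf4f_ag.TenCubics

open MvPolynomial

variable {m : ℕ}

/-- The apolarity action: `contract f T` is the polynomial differential operator `f(∂)` applied
to `T`; it is the bilinear map with
`contract (x^a) (x^b) = (∏ i, b_i (b_i - 1) ⋯ (b_i - a_i + 1)) x^(b-a)`. -/
noncomputable def contract :
    MvPolynomial (Fin m) ℂ →ₗ[ℂ] MvPolynomial (Fin m) ℂ →ₗ[ℂ] MvPolynomial (Fin m) ℂ :=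
  (basisMonomials (Fin m) ℂ).constr ℂ fun a =>
    (basisMonomials (Fin m) ℂ).constr ℂ fun b =>
      monomial (b - a) (∏ i, ((b i).descFactorial (a i) : ℂ))

/-- The forms of degree `d` in the apolar ideal `Ann(T)`. -/
noncomputable def annDeg (T : MvPolynomial (Fin m) ℂ) (d : ℕ) :
    Submodule ℂ (MvPolynomial (Fin m) ℂ) :=
  homogeneousSubmodule (Fin m) ℂ d ⊓ LinearMap.ker (contract.flip T)

/-- `T` is concise: its apolar ideal contains no nonzero linear form. -/
def IsConcise (T : MvPolynomial (Fin m) ℂ) : Prop := annDeg T 1 = ⊥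

/-- The number of minimal cubic generators, `dim Ann(T)_3 - dim (S_1 * Ann(T)_2)`. -/
noncomputable def numCubicGens (T : MvPolynomial (Fin m) ℂ) : ℕ :=
  Module.finrank ℂ (annDeg T 3) -
    Module.finrank ℂ ↥(homogeneousSubmodule (Fin m) ℂ 1 * annDeg T 2)

theorem contract_monomial (a b : Fin m →₀ ℕ) :
    contract (monomial a (1 : ℂ)) (monomial b 1) =
      monomial (b - a) (∏ i, ((b i).descFactorial (a i) : ℂ)) := by
  have h1 : monomial a (1 : ℂ) = basisMonomials (Fin m) ℂ a := by simp
  have h2 : monomial b (1 : ℂ) = basisMonomials (Fin m) ℂ b := by simp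
  rw [contract, h1, Module.Basis.constr_basis, h2, Module.Basis.constr_basis]

theorem coeff_contract_monomial (a c : Fin m →₀ ℕ) (T : MvPolynomial (Fin m) ℂ) :
    coeff c (contract (monomial a (1 : ℂ)) T) =
      coeff (a + c) T * ∏ i, (((a + c) i).descFactorial (a i) : ℂ) := by
  induction T using MvPolynomial.induction_on' with
  | monomial b t =>
    have h : monomial b t = t • monomial b (1 : ℂ) := by rw [smul_monomial, smul_eq_mul, mul_one]
    rw [h, map_smul, coeff_smul, coeff_smul, contract_monomial, coeff_monomial, coeff_monomial]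
    by_cases hb : b = a + c
    · subst hb
      simp
    · rw [if_neg hb]
      by_cases hab : a ≤ b
      · rw [if_neg]
        · simp
        · intro h
          apply hb
          rw [← h, add_tsub_cancel_of_le hab]
      · have : ∃ i, b i < a i := by
          by_contra hcon
          push Not at hcon
          exact hab hcon
        obtain ⟨i, hi⟩ := this
        have h0 : ∏ i, ((b i).descFactorial (a i) : ℂ) = 0 := by
          apply Finset.prod_eq_zero (Finset.mem_univ i)
          rw [Nat.descFactorial_eq_zero_iff_lt.2 hi]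
          simp
        rw [h0]
        simp
  | add p q hp hq => rw [map_add, coeff_add, hp, hq, coeff_add]; ring

theorem coeff_contract (q T : MvPolynomial (Fin m) ℂ) (c : Fin m →₀ ℕ) :
    coeff c (contract q T) =
      ∑ a ∈ q.support, coeff a q *
        (coeff (a + c) T * ∏ i, (((a + c) i).descFactorial (a i) : ℂ)) := by
  conv_lhs => rw [q.as_sum]
  rw [map_sum, LinearMap.sum_apply, coeff_sum]
  apply Finset.sum_congr rfl
  intro a _
  have h : monomial a (coeff a q) = coeff a q • monomial a (1 : ℂ) := by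
    rw [smul_monomial, smul_eq_mul, mul_one]
  rw [h, map_smul, LinearMap.smul_apply, coeff_smul, coeff_contract_monomial, smul_eq_mul]

theorem coeff_eq_zero_of_unique (q T : MvPolynomial (Fin m) ℂ) (a0 c : Fin m →₀ ℕ)
    (h : ∀ a ∈ q.support, coeff (a + c) T ≠ 0 → a = a0) (h1 : coeff (a0 + c) T ≠ 0)
    (hq : contract q T = 0) : coeff a0 q = 0 := by
  by_contra hne
  have h2 := coeff_contract q T c
  rw [hq, coeff_zero, Finset.sum_eq_single_of_mem a0 (mem_support_iff.2 hne)] at h2
  · have h3 : (∏ i, (((a0 + c) i).descFactorial (a0 i) : ℂ)) ≠ 0 := by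
      rw [Finset.prod_ne_zero_iff]
      intro i _ h4
      have h5 : ((a0 + c) i).descFactorial (a0 i) = 0 := by exact_mod_cast h4
      rw [Nat.descFactorial_eq_zero_iff_lt, Finsupp.add_apply] at h5
      omega
    exact mul_ne_zero hne (mul_ne_zero h1 h3) h2.symm
  · intro a ha hne'
    have : coeff (a + c) T = 0 := by
      by_contra h6
      exact hne' (h a ha h6)
    rw [this]
    ring

/-- Exponents of the six monomials of the cubic. -/
def tb : Fin 6 → Fin 9 → ℕ :=
  ![![2, 0, 0, 1, 0, 0, 0, 0, 0], ![1, 1, 0, 0, 1, 0, 0, 0, 0], ![1, 0, 1, 0, 0, 1, 0, 0, 0],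
    ![0, 2, 0, 0, 0, 0, 1, 0, 0], ![0, 1, 1, 0, 0, 0, 0, 1, 0], ![0, 0, 2, 0, 0, 0, 0, 0, 1]]

/-- The cubic
`x₀²x₃ + x₀x₁x₄ + x₀x₂x₅ + x₁²x₆ + x₁x₂x₇ + x₂²x₈`. -/
noncomputable def T₀ : MvPolynomial (Fin 9) ℂ :=
  ∑ p, monomial (Finsupp.equivFunOnFinite.symm (tb p)) 1

theorem coeff_T₀ (d : Fin 9 →₀ ℕ) (h : coeff d T₀ ≠ 0) : ∃ p, ∀ i, d i = tb p i := by
  by_contra hcon
  push Not at hcon
  apply h
  unfold T₀
  rw [coeff_sum]
  apply Finset.sum_eq_zero
  intro p _
  rw [coeff_monomial, if_neg]
  rintro rfl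
  obtain ⟨i, hi⟩ := hcon p
  exact hi rfl

theorem coeff_T₀_ne (d : Fin 9 →₀ ℕ) (p : Fin 6) (h : ∀ i, d i = tb p i) : coeff d T₀ ≠ 0 := by
  unfold T₀
  rw [coeff_sum, Finset.sum_eq_single p]
  · have : Finsupp.equivFunOnFinite.symm (tb p) = d := by
      ext i
      exact (h i).symm
    rw [coeff_monomial, if_pos this]
    exact one_ne_zero
  · intro q _ hq
    rw [coeff_monomial, if_neg]
    intro hd
    apply hq
    have h1 : ∀ i, tb q i = tb p i := by
      intro i
      rw [← h i, ← hd]
      rfl
    clear h hq hd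
    revert p q
    decide
  · intro hp
    exact absurd (Finset.mem_univ p) hp

theorem T₀_homog : T₀.IsHomogeneous 3 := by
  unfold T₀
  apply IsHomogeneous.sum
  intro p _
  apply isHomogeneous_monomial
  rw [Finsupp.degree_eq_sum]
  fin_cases p <;> decide

/-- The exponents of the ten cubic monomials in `x₀, x₁, x₂`. -/
def tc : Fin 10 → Fin 9 → ℕ :=
  ![![3, 0, 0, 0, 0, 0, 0, 0, 0], ![2, 1, 0, 0, 0, 0, 0, 0, 0], ![2, 0, 1, 0, 0, 0, 0, 0, 0],
    ![1, 2, 0, 0, 0, 0, 0, 0, 0], ![1, 1, 1, 0, 0, 0, 0, 0, 0], ![1, 0, 2, 0, 0, 0, 0, 0, 0],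
    ![0, 3, 0, 0, 0, 0, 0, 0, 0], ![0, 2, 1, 0, 0, 0, 0, 0, 0], ![0, 1, 2, 0, 0, 0, 0, 0, 0],
    ![0, 0, 3, 0, 0, 0, 0, 0, 0]]

/-- The ten monomials. -/
noncomputable def cub (k : Fin 10) : MvPolynomial (Fin 9) ℂ :=
  monomial (Finsupp.equivFunOnFinite.symm (tc k)) 1

theorem cub_mem (k : Fin 10) : cub k ∈ annDeg T₀ 3 := by
  refine ⟨?_, ?_⟩
  · apply isHomogeneous_monomial
    rw [Finsupp.degree_eq_sum]
    fin_cases k <;> decide
  · rw [SetLike.mem_coe, LinearMap.mem_ker, LinearMap.flip_apply]
    ext c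
    rw [cub, coeff_contract_monomial, coeff_zero]
    have : coeff (Finsupp.equivFunOnFinite.symm (tc k) + c) T₀ = 0 := by
      by_contra hne
      obtain ⟨p, hp⟩ := coeff_T₀ _ hne
      have h0 := hp 0
      have h1 := hp 1
      have h2 := hp 2
      have e : ∀ i, (Finsupp.equivFunOnFinite.symm (tc k) + c) i = tc k i + c i := fun _ => rfl
      rw [e] at h0 h1 h2
      have h3 : ∀ k : Fin 10, tc k 0 + tc k 1 + tc k 2 = 3 := by decide
      have h4 : ∀ p : Fin 6, tb p 0 + tb p 1 + tb p 2 = 2 := by decide
      have := h3 k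
      have := h4 p
      omega
    rw [this, zero_mul]

/-- Setting the last six variables to zero. -/
noncomputable def π : MvPolynomial (Fin 9) ℂ →ₐ[ℂ] MvPolynomial (Fin 9) ℂ :=
  aeval fun i => if i.val < 3 then X i else 0

theorem π_cub (k : Fin 10) : π (cub k) = cub k := by
  have h : cub k = X 0 ^ (tc k 0) * X 1 ^ (tc k 1) * X 2 ^ (tc k 2) := by
    unfold cub
    rw [monomial_eq, C_1, one_mul, Finsupp.prod_fintype]
    · have e : ∀ i, (Finsupp.equivFunOnFinite.symm (tc k)) i = tc k i := fun _ => rfl
      simp only [e]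
      simp only [Fin.prod_univ_succ, Fin.prod_univ_zero]
      fin_cases k <;> simp [tc] <;> ring
    · intro i
      exact pow_zero _
  rw [h]
  simp [π]

theorem π_ann (q : MvPolynomial (Fin 9) ℂ) (hq : q ∈ annDeg T₀ 2) : π q = 0 := by
  obtain ⟨h2, hann⟩ := hq
  rw [SetLike.mem_coe, LinearMap.mem_ker, LinearMap.flip_apply] at hann
  have h2' : q.IsHomogeneous 2 := h2
  rw [q.as_sum, map_sum]
  apply Finset.sum_eq_zero
  intro a ha
  have hdeg : a.degree = 2 := by
    by_contra hne
    exact (mem_support_iff.1 ha) (h2'.coeff_eq_zero hne)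
  rw [monomial_eq, map_mul]
  by_cases hy : ∃ i : Fin 9, 3 ≤ i.val ∧ a i ≠ 0
  · obtain ⟨i, hi, hai⟩ := hy
    have : π (a.prod fun n e => X n ^ e) = 0 := by
      rw [Finsupp.prod, map_prod]
      apply Finset.prod_eq_zero (Finsupp.mem_support_iff.2 hai)
      rw [map_pow, π, aeval_X, if_neg (by omega), zero_pow hai]
    rw [this, mul_zero]
  · exfalso
    push Not at hy
    apply mem_support_iff.1 ha
    have hdeg' : ∑ i, a i = 2 := by rw [← Finsupp.degree_eq_sum, hdeg]
    simp only [Fin.sum_univ_succ, Fin.sum_univ_zero] at hdeg'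
    have z3 := hy 3 (by decide)
    have z4 := hy 4 (by decide)
    have z5 := hy 5 (by decide)
    have z6 := hy 6 (by decide)
    have z7 := hy 7 (by decide)
    have z8 := hy 8 (by decide)
    -- the monomial of `T₀` which contains `a`
    have hsum : a 0 + a 1 + a 2 = 2 := by
      simp [z3, z4, z5, z6, z7, z8] at hdeg'
      have e1 : (Fin.succ 0 : Fin 9) = 1 := rfl
      have e2 : (Fin.succ (Fin.succ 0) : Fin 9) = 2 := rfl
      omega
    obtain ⟨p, j, hj, hp⟩ : ∃ (p : Fin 6) (j : Fin 9), (∀ r, tb r j ≠ 0 → r = p) ∧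
        ∀ i, a i + (if i = j then 1 else 0) = tb p i := by
      have key : ∀ x y z : Fin 3, x.val + y.val + z.val = 2 →
          ∃ (p : Fin 6) (j : Fin 9), (∀ r, tb r j ≠ 0 → r = p) ∧
          ∀ i, (![x.val, y.val, z.val, 0, 0, 0, 0, 0, 0] : Fin 9 → ℕ) i +
            (if i = j then 1 else 0) = tb p i := by decide
      obtain ⟨p, j, hj, hp⟩ := key ⟨a 0, by omega⟩ ⟨a 1, by omega⟩ ⟨a 2, by omega⟩ hsum
      refine ⟨p, j, hj, fun i => ?_⟩
      rw [← hp i]
      congr 1
      fin_cases i
      · rfl
      · rfl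
      · rfl
      · exact z3
      · exact z4
      · exact z5
      · exact z6
      · exact z7
      · exact z8
    have hadd : ∀ (b : Fin 9 →₀ ℕ) (i : Fin 9), (b + Finsupp.single j 1 : Fin 9 →₀ ℕ) i =
        b i + (if i = j then 1 else 0) := by
      intro b i
      rw [Finsupp.add_apply, Finsupp.single_apply]
      simp only [eq_comm]
    apply coeff_eq_zero_of_unique q T₀ a (Finsupp.single j 1) _ _ hann
    · intro b _ hb
      obtain ⟨r, hr⟩ := coeff_T₀ _ hb
      have hrp : r = p := by
        apply hj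
        rw [← hr j, hadd, if_pos rfl]
        omega
      subst hrp
      ext i
      have h1 := hr i
      rw [hadd] at h1
      have h2 := hp i
      omega
    · apply coeff_T₀_ne _ p
      intro i
      rw [hadd, hp i]

theorem deg_one {a : Fin 9 →₀ ℕ} (h : a.degree = 1) : ∃ i, a = Finsupp.single i 1 := by
  rw [Finsupp.degree_eq_sum] at h
  obtain ⟨i, -, hi⟩ : ∃ i ∈ Finset.univ, a i ≠ 0 := by
    by_contra hcon
    push Not at hcon
    rw [Finset.sum_eq_zero hcon] at h
    omega
  refine ⟨i, ?_⟩
  rw [← Finset.add_sum_erase _ _ (Finset.mem_univ i)] at h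
  have h1 : a i = 1 := by omega
  have h2 : ∑ j ∈ Finset.univ.erase i, a j = 0 := by omega
  rw [Finset.sum_eq_zero_iff] at h2
  ext j
  by_cases hj : j = i
  · subst hj
    rw [h1, Finsupp.single_eq_same]
  · rw [h2 j (by simp [hj]), Finsupp.single_eq_of_ne hj]

theorem contract_mul (f g T : MvPolynomial (Fin m) ℂ) :
    contract (f * g) T = contract f (contract g T) := by
  have h : ∀ (a b : Fin m →₀ ℕ), contract (monomial (a + b) (1 : ℂ)) T =
      contract (monomial a (1 : ℂ)) (contract (monomial b (1 : ℂ)) T) := by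
    intro a b
    ext c
    rw [coeff_contract_monomial, coeff_contract_monomial, coeff_contract_monomial]
    have e1 : b + (a + c) = a + b + c := by
      rw [← add_assoc, add_comm b a]
    rw [e1, mul_assoc, ← Finset.prod_mul_distrib]
    congr 1
    apply Finset.prod_congr rfl
    intro i _
    have e2 : ((a + b + c) i).descFactorial ((a + b) i) =
        ((a + b + c) i).descFactorial (b i) * ((a + c) i).descFactorial (a i) := by
      have h1 := Nat.descFactorial_mul_descFactorial (n := (a + b + c) i) (k := b i)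
        (m := (a + b) i) (by simp)
      rw [← h1, mul_comm]
      congr 2
      · simp only [Finsupp.add_apply]
        omega
      · simp only [Finsupp.add_apply]
        omega
    exact_mod_cast e2
  induction f using MvPolynomial.induction_on' with
  | monomial a s =>
    induction g using MvPolynomial.induction_on' with
    | monomial b t =>
      have h1 : monomial a s = s • monomial a (1 : ℂ) := by
        rw [smul_monomial, smul_eq_mul, mul_one]
      have h2 : monomial b t = t • monomial b (1 : ℂ) := by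
        rw [smul_monomial, smul_eq_mul, mul_one]
      have h3 : monomial a s * monomial b t = (s * t) • monomial (a + b) (1 : ℂ) := by
        rw [monomial_mul, smul_monomial, smul_eq_mul, mul_one]
      rw [h3, h1, h2]
      simp only [map_smul, LinearMap.smul_apply, h, smul_smul]
      rw [mul_comm]
    | add p q hp hq =>
      rw [mul_add, map_add, LinearMap.add_apply, hp, hq, map_add, LinearMap.add_apply, map_add]
  | add p q hp hq =>
    rw [add_mul, map_add, LinearMap.add_apply, hp, hq, map_add, LinearMap.add_apply]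

theorem T₀_concise : IsConcise T₀ := by
  unfold IsConcise
  rw [eq_bot_iff]
  rintro q ⟨h1, hann⟩
  rw [SetLike.mem_coe, LinearMap.mem_ker, LinearMap.flip_apply] at hann
  have h1' : q.IsHomogeneous 1 := h1
  rw [Submodule.mem_bot]
  ext a
  rw [coeff_zero]
  by_cases hdeg : a.degree = 1
  · obtain ⟨i, rfl⟩ := deg_one hdeg
    -- a monomial of `T₀` divisible by `x_i` such that no other variable can replace `x_i`
    have key : ∀ i : Fin 9, ∃ p : Fin 6, tb p i ≠ 0 ∧
        ∀ (r : Fin 6) (j : Fin 9), (∀ l, tb p l + (if l = j then 1 else 0) =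
          tb r l + (if l = i then 1 else 0)) → j = i := by decide +kernel
    obtain ⟨p, hp0, hp⟩ := key i
    let c : Fin 9 →₀ ℕ := Finsupp.equivFunOnFinite.symm fun l =>
      tb p l - (if l = i then 1 else 0)
    have hc : ∀ l, c l + (if l = i then 1 else 0) = tb p l := by
      intro l
      have e : c l = tb p l - (if l = i then 1 else 0) := rfl
      rw [e]
      split_ifs with h
      · subst h
        omega
      · omega
    apply coeff_eq_zero_of_unique q T₀ (Finsupp.single i 1) c _ _ hann
    · intro b hb hbne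
      have hbdeg : b.degree = 1 := by
        by_contra hne
        exact (mem_support_iff.1 hb) (h1'.coeff_eq_zero hne)
      obtain ⟨j, rfl⟩ := deg_one hbdeg
      obtain ⟨r, hr⟩ := coeff_T₀ _ hbne
      have : j = i := by
        apply hp r j
        intro l
        rw [← hr l, ← hc l, Finsupp.add_apply, Finsupp.single_apply]
        simp only [eq_comm]
        ring
      rw [this]
    · apply coeff_T₀_ne _ p
      intro l
      rw [← hc l, Finsupp.add_apply, Finsupp.single_apply]
      simp only [eq_comm]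
      ring
  · exact h1'.coeff_eq_zero hdeg

/-- There is a concise cubic in nine variables whose apolar ideal has at least ten minimal
generators of degree three. -/
theorem result : ∃ T : MvPolynomial (Fin 9) ℂ,
    T.IsHomogeneous 3 ∧ IsConcise T ∧ 10 ≤ numCubicGens T := by
  refine ⟨T₀, T₀_homog, T₀_concise, ?_⟩
  set W := homogeneousSubmodule (Fin 9) ℂ 1 * annDeg T₀ 2 with hW
  set U := Submodule.span ℂ (Set.range cub) with hU
  have hWker : W ≤ LinearMap.ker π.toLinearMap := by
    rw [hW, Submodule.mul_le]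
    intro l _ q hq
    rw [LinearMap.mem_ker, AlgHom.toLinearMap_apply, map_mul, π_ann q hq, mul_zero]
  have hUid : ∀ u ∈ U, π u = u := by
    intro u hu
    induction hu using Submodule.span_induction with
    | mem x hx =>
      obtain ⟨k, rfl⟩ := hx
      exact π_cub k
    | zero => exact map_zero _
    | add x y _ _ hx hy => rw [map_add, hx, hy]
    | smul c x _ hx => rw [map_smul, hx]
  have hdisj : U ⊓ W = ⊥ := by
    rw [eq_bot_iff]
    rintro u ⟨hu, hw⟩
    have h1 := hUid u hu
    have h2 := hWker hw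
    rw [LinearMap.mem_ker, AlgHom.toLinearMap_apply, h1] at h2
    exact h2
  have hWle : W ≤ annDeg T₀ 3 := by
    rw [hW, Submodule.mul_le]
    rintro l hl q ⟨hq2, hqann⟩
    refine ⟨?_, ?_⟩
    · have hl' : l.IsHomogeneous 1 := hl
      have hq' : q.IsHomogeneous 2 := hq2
      have := hl'.mul hq'
      exact this
    · rw [SetLike.mem_coe, LinearMap.mem_ker, LinearMap.flip_apply] at hqann ⊢
      rw [contract_mul, hqann, map_zero]
  have hUle : U ≤ annDeg T₀ 3 := by
    rw [hU, Submodule.span_le]
    rintro _ ⟨k, rfl⟩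
    exact cub_mem k
  have hfin : FiniteDimensional ℂ (annDeg T₀ 3) := by
    have h1 : (homogeneousSubmodule (Fin 9) ℂ 3).FG := homogeneousSubmodule_fg _ _ _
    have h2 : FiniteDimensional ℂ (homogeneousSubmodule (Fin 9) ℂ 3) := Module.Finite.iff_fg.2 h1
    exact Submodule.finiteDimensional_of_le (inf_le_left : annDeg T₀ 3 ≤ _)
  have hfU : FiniteDimensional ℂ U := Submodule.finiteDimensional_of_le hUle
  have hfW : FiniteDimensional ℂ W := Submodule.finiteDimensional_of_le hWle
  have hUcard : Module.finrank ℂ U = 10 := by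
    rw [hU, finrank_span_eq_card]
    · simp
    · have hinj : Function.Injective fun k : Fin 10 =>
          (Finsupp.equivFunOnFinite.symm (tc k) : Fin 9 →₀ ℕ) := by
        intro k l hkl
        have h1 := Finsupp.equivFunOnFinite.symm.injective hkl
        have h2 : ∀ k l : Fin 10, tc k = tc l → k = l := by decide
        exact h2 k l h1
      have h3 := (basisMonomials (Fin 9) ℂ).linearIndependent.comp _ hinj
      have h4 : cub = (basisMonomials (Fin 9) ℂ) ∘ fun k : Fin 10 =>
          (Finsupp.equivFunOnFinite.symm (tc k) : Fin 9 →₀ ℕ) := by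
        funext k
        simp [cub]
      rw [h4]
      exact h3
  have hsum := Submodule.finrank_sup_add_finrank_inf_eq U W
  rw [hdisj, finrank_bot, add_zero, hUcard] at hsum
  have hle : Module.finrank ℂ ↥(U ⊔ W) ≤ Module.finrank ℂ (annDeg T₀ 3) :=
    Submodule.finrank_mono (sup_le hUle hWle)
  unfold numCubicGens
  rw [← hW]
  omega

end Pool.Agent.Results.MP_1eaf4f_ag.TenCubics
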